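import Pool.Agent.Helper481.MB4

/-!
# Maximal frames of bodies with equality in Macbeath's determinant inequality
-/

set_option autoImplicit false
open MeasureTheory Set Module Metric Filter Topology
open scoped ENNReal RealInnerProductSpace

namespace Pool.Agent.Y507.GM

open Pool.Agent.Helper481.RH Pool.Agent.Helper481.MB

variable {m : ℕ}

/-- the determinant as an alternating map -/
noncomputable def ctA (m : ℕ) : (ℝ × (Fin m → ℝ)) [⋀^Fin (m + 1)]→ₗ[ℝ] ℝ :=
  (Matrix.detRowAlternating (n := Fin (m + 1)) (R := ℝ)).compLinearMap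
    (Fin.consEquivL ℝ (fun _ : Fin (m + 1) => ℝ)).toLinearEquiv.toLinearMap

lemma ctA_eq (p : Fin (m + 1) → ℝ × (Fin m → ℝ)) :
    ctA m p = cdet (fun j => (p j).1) (fun j => (p j).2) := by
  unfold ctA cdet
  rw [AlternatingMap.compLinearMap_apply, ← Matrix.det_transpose]
  rfl

lemma ctA_continuous : Continuous (ctA m) := by
  have h : (ctA m : (Fin (m + 1) → ℝ × (Fin m → ℝ)) → ℝ) =
      fun p => (Matrix.of fun j => (Fin.cons (p j).1 (p j).2 : Fin (m + 1) → ℝ)).det := rfl
  rw [h]
  refine Continuous.matrix_det (continuous_matrix fun i j => ?_)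
  refine Fin.cases ?_ (fun k => ?_) j
  · simp only [Matrix.of_apply, Fin.cons_zero]
    fun_prop
  · simp only [Matrix.of_apply, Fin.cons_succ]
    fun_prop

/-- all determinants of points of `K` are at most `A` -/
def PD (K : Set (ℝ × (Fin m → ℝ))) (A : ℝ) : Prop :=
  ∀ p : Fin (m + 1) → ℝ × (Fin m → ℝ), (∀ j, p j ∈ K) → |ctA m p| ≤ A

/-- the bound for alternating maps extends to the convex hull -/
lemma hull_alt {ι E : Type*} [Fintype ι] [DecidableEq ι] [AddCommGroup E] [Module ℝ E]
    (f : E [⋀^ι]→ₗ[ℝ] ℝ) {S : Set E} {A : ℝ} (h : ∀ p : ι → E, (∀ j, p j ∈ S) → |f p| ≤ A) :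
    ∀ p : ι → E, (∀ j, p j ∈ convexHull ℝ S) → |f p| ≤ A := by
  have key : ∀ s : Finset ι, ∀ p : ι → E, (∀ j ∈ s, p j ∈ convexHull ℝ S) →
      (∀ j, j ∉ s → p j ∈ S) → |f p| ≤ A := by
    intro s
    induction s using Finset.induction_on with
    | empty => intro p _ hp; exact h p fun j => hp j (Finset.notMem_empty j)
    | insert i s hi ih =>
      intro p hp1 hp2
      have hC : Convex ℝ {x : E | |f (Function.update p i x)| ≤ A} := by
        have h1 : {x : E | |f (Function.update p i x)| ≤ A} =
            (f.toMultilinearMap.toLinearMap p i) ⁻¹' (closedBall 0 A) := by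
          ext x
          rw [mem_preimage, mem_closedBall_zero_iff, Real.norm_eq_abs]
          rfl
        rw [h1]
        exact (convex_closedBall (0 : ℝ) A).linear_preimage _
      have hsub : S ⊆ {x : E | |f (Function.update p i x)| ≤ A} := by
        intro x hx
        apply ih
        · intro j hj
          have hji : j ≠ i := fun h => hi (h ▸ hj)
          rw [Function.update_of_ne hji]
          exact hp1 j (Finset.mem_insert_of_mem hj)
        · intro j hj
          by_cases hji : j = i
          · subst hji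
            rw [Function.update_self]
            exact hx
          · rw [Function.update_of_ne hji]
            exact hp2 j fun h => (Finset.mem_insert.1 h).elim hji hj
      have h2 := convexHull_min hsub hC (hp1 i (Finset.mem_insert_self i s))
      rw [mem_ofPred_eq, Function.update_eq_self] at h2
      exact h2
  intro p hp
  exact key Finset.univ p (fun j _ => hp j) (fun j hj => absurd (Finset.mem_univ j) hj)

/-- Macbeath's theorem in coordinates -/
theorem macbeath_coord {K : Set (ℝ × (Fin m → ℝ))} (hK : IsCompact K) (hc : Convex ℝ K) {A : ℝ}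
    (hA : PD K A) : volume K ≤ kap (m + 1) * ENNReal.ofReal A := by
  set b := EuclideanSpace.basisFun (Fin (m + 1)) ℝ with hb
  set K' : Set (EuclideanSpace ℝ (Fin (m + 1))) := (coord b).symm '' K with hK'
  have h1 : coord b '' K' = K := by
    rw [hK', image_image]
    simp
  have h2 : volume K = volume K' := by
    rw [← h1]
    exact volume_coord_image b
  rw [h2]
  refine macbeath (hK.image (coord b).symm.continuous)
    (hc.linear_image (coord b).symm.toLinearEquiv.toLinearMap) ?_
  intro v hv
  rw [adet_coord b, ← ctA_eq (fun j => coord b (v j))]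
  refine hA _ fun j => ?_
  rw [← h1]
  exact ⟨v j, hv j, rfl⟩

/-- maximal frames through the boundary points of an extremal body -/
theorem max_frame {K : Set (ℝ × (Fin m → ℝ))} (hK : IsCompact K) (hc : Convex ℝ K)
    (hint : (interior K).Nonempty) {A : ℝ} (hA0 : 0 < A) (hA : PD K A)
    (hvol : kap (m + 1) * ENNReal.ofReal A ≤ volume K) {x : ℝ × (Fin m → ℝ)} (hx : x ∈ K)
    (hxo : ∀ ε : ℝ, 0 < ε → (1 + ε) • x ∉ K) :
    ∃ p : Fin (m + 1) → ℝ × (Fin m → ℝ), (∀ j, p j ∈ K) ∧ p 0 = x ∧ |ctA m p| = A := by
  have hFc : IsCompact {p : Fin (m + 1) → ℝ × (Fin m → ℝ) | (∀ j, p j ∈ K) ∧ p 0 = x} := by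
    have h1 : IsCompact (Set.pi univ fun _ : Fin (m + 1) => K) := isCompact_univ_pi fun _ => hK
    have h2 : {p : Fin (m + 1) → ℝ × (Fin m → ℝ) | (∀ j, p j ∈ K) ∧ p 0 = x} =
        (Set.pi univ fun _ : Fin (m + 1) => K) ∩ {p | p 0 = x} := by
      ext p
      simp
    rw [h2]
    exact h1.inter_right (isClosed_eq (continuous_apply 0) continuous_const)
  have hFne : {p : Fin (m + 1) → ℝ × (Fin m → ℝ) | (∀ j, p j ∈ K) ∧ p 0 = x}.Nonempty :=
    ⟨fun _ => x, fun _ => hx, rfl⟩
  obtain ⟨p, ⟨hpK, hp0⟩, hmax⟩ := hFc.exists_isMaxOn hFne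
    (ctA_continuous (m := m)).abs.continuousOn
  refine ⟨p, hpK, hp0, ?_⟩
  by_contra hne
  have hlt : |ctA m p| < A := lt_of_le_of_ne (hA p hpK) hne
  set A' := |ctA m p| with hA'
  have hA'0 : 0 ≤ A' := abs_nonneg _
  have hmax' : ∀ q : Fin (m + 1) → ℝ × (Fin m → ℝ), (∀ j, q j ∈ K) → q 0 = x →
      |ctA m q| ≤ A' := fun q h1 h2 => hmax ⟨h1, h2⟩
  set ε : ℝ := (A - A') / (A' + 1) with hε
  have hε0 : 0 < ε := div_pos (by linarith) (by linarith)
  have hεA : (1 + ε) * A' ≤ A := by
    have h1 : ε * (A' + 1) = A - A' := by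
      rw [hε]; field_simp
    nlinarith
  set z : ℝ × (Fin m → ℝ) := (1 + ε) • x with hz
  have hzK : z ∉ K := hxo ε hε0
  set S : Set (ℝ × (Fin m → ℝ)) := insert z K with hS
  have hSA : ∀ q : Fin (m + 1) → ℝ × (Fin m → ℝ), (∀ j, q j ∈ S) → |ctA m q| ≤ A := by
    intro q hq
    by_cases h1 : ∀ j, q j ≠ z
    · exact hA q fun j => (mem_insert_iff.1 (hq j)).resolve_left (h1 j)
    · push Not at h1
      obtain ⟨i, hi⟩ := h1
      by_cases h2 : ∃ j, j ≠ i ∧ q j = z
      · obtain ⟨j, hji, hj⟩ := h2
        rw [(ctA m).map_eq_zero_of_eq q (hj.trans hi.symm) hji, abs_zero]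
        exact hA0.le
      · push Not at h2
        have h3 : ∀ j, j ≠ i → q j ∈ K := fun j hj =>
          (mem_insert_iff.1 (hq j)).resolve_left (h2 j hj)
        have h4 : q = Function.update q i ((1 + ε) • x) := by
          rw [← hz, ← hi, Function.update_eq_self]
        rw [h4, (ctA m).map_update_smul, smul_eq_mul, abs_mul, abs_of_pos (by linarith)]
        refine le_trans ?_ hεA
        refine mul_le_mul_of_nonneg_left ?_ (by linarith)
        set q' := Function.update q i x with hq'
        have h5 : |ctA m q'| = |ctA m (q' ∘ Equiv.swap 0 i)| := by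
          rw [(ctA m).map_perm]
          rcases Int.units_eq_one_or (Equiv.Perm.sign (Equiv.swap (0 : Fin (m + 1)) i)) with h | h
          · rw [h, one_smul]
          · rw [h, Units.neg_smul, one_smul, abs_neg]
        rw [h5]
        apply hmax'
        · intro j
          rw [Function.comp_apply]
          by_cases h6 : Equiv.swap (0 : Fin (m + 1)) i j = i
          · rw [h6, hq', Function.update_self]
            exact hx
          · rw [hq', Function.update_of_ne h6]
            exact h3 _ h6
        · rw [Function.comp_apply, Equiv.swap_apply_left, hq', Function.update_self]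
  -- the larger body
  set L : Set (ℝ × (Fin m → ℝ)) := convexHull ℝ S with hL
  have hLc : IsCompact L := by
    have h1 : S = {z} ∪ K := rfl
    rw [hL, h1]
    exact isCompact_convexHull_union isCompact_singleton hK (convex_singleton z) hc
  have hKL : K ⊆ L := (subset_insert z K).trans (subset_convexHull ℝ S)
  have hzL : z ∈ L := subset_convexHull ℝ S (mem_insert z K)
  have hLconv : Convex ℝ L := convex_convexHull ℝ S
  have h1 := macbeath_coord hLc hLconv (hull_alt (ctA m) hSA)
  have hLint : (interior L).Nonempty := hint.mono (interior_mono hKL)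
  have hzcl : z ∈ closure (interior L) := by
    rw [hLconv.closure_interior_eq_closure_of_nonempty_interior hLint]
    exact subset_closure hzL
  have hopen : IsOpen (Kᶜ : Set (ℝ × (Fin m → ℝ))) := hK.isClosed.isOpen_compl
  have h2 : (Kᶜ ∩ interior L).Nonempty := mem_closure_iff.1 hzcl _ hopen hzK
  have h3 : 0 < volume (Kᶜ ∩ interior L) := (hopen.inter isOpen_interior).measure_pos volume h2
  have h4 : volume K + volume (Kᶜ ∩ interior L) ≤ volume L := by
    rw [← measure_union (disjoint_left.2 fun y hy1 hy2 => hy2.1 hy1)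
      (hopen.inter isOpen_interior).measurableSet]
    exact measure_mono (union_subset hKL (inter_subset_right.trans interior_subset))
  have h5 : volume K + volume (Kᶜ ∩ interior L) ≤ volume K := (h4.trans h1).trans hvol
  have h6 : volume K < volume K + volume (Kᶜ ∩ interior L) :=
    ENNReal.lt_add_right hK.measure_lt_top.ne h3.ne'
  exact absurd h5 (not_le.2 h6)

end Pool.Agent.Y507.GM
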