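import Pool.Agent.Y507.GM.G1

/-!
# Supporting lines at the two ends of a chord of an extremal body
-/

set_option autoImplicit false
open MeasureTheory Set Module Metric Filter Topology
open scoped ENNReal RealInnerProductSpace

namespace Pool.Agent.Y507.GM

open Pool.Agent.Helper481.RH Pool.Agent.Helper481.MB

variable {m : ℕ}

/-- extremal bodies, in coordinates -/
structure Ext (K : Set (ℝ × (Fin m → ℝ))) (A : ℝ) : Prop where
  comp : IsCompact K
  conv : Convex ℝ K
  int : (interior K).Nonempty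
  neg : ∀ x ∈ K, -x ∈ K
  pos : 0 < A
  pd : PD K A
  vol : kap (m + 1) * ENNReal.ofReal A ≤ volume K

lemma Ext.zero_int {K : Set (ℝ × (Fin m → ℝ))} {A : ℝ} (h : Ext K A) :
    (0 : ℝ × (Fin m → ℝ)) ∈ interior K := by
  obtain ⟨x, hx⟩ := h.int
  have h1 : -x ∈ interior K := by
    rw [mem_interior] at hx ⊢
    obtain ⟨U, hU, hUo, hxU⟩ := hx
    refine ⟨-U, fun y hy => ?_, hUo.neg, by simpa using hxU⟩
    have := h.neg _ (hU hy)
    simpa using this
  have h2 := h.conv.interior.midpoint_mem hx h1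
  rwa [midpoint_self_neg] at h2

lemma Ext.zero_mem {K : Set (ℝ × (Fin m → ℝ))} {A : ℝ} (h : Ext K A) :
    (0 : ℝ × (Fin m → ℝ)) ∈ K := interior_subset h.zero_int

/-- a small vertical segment -/
lemma Ext.exists_vert {K : Set (ℝ × (Fin m → ℝ))} {A : ℝ} (h : Ext K A) :
    ∃ δ : ℝ, 0 < δ ∧ ((δ, 0) : ℝ × (Fin m → ℝ)) ∈ K ∧ ((-δ, 0) : ℝ × (Fin m → ℝ)) ∈ K := by
  obtain ⟨ε, hε, hb⟩ := Metric.mem_nhds_iff.1 (mem_interior_iff_mem_nhds.1 h.zero_int)
  refine ⟨ε / 2, by positivity, hb ?_, hb ?_⟩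
  · rw [mem_ball_zero_iff, Prod.norm_mk, norm_zero, Real.norm_eq_abs, abs_of_pos (by positivity)]
    exact max_lt (by linarith) hε
  · rw [mem_ball_zero_iff, Prod.norm_mk, norm_zero, Real.norm_eq_abs, abs_neg,
      abs_of_pos (by positivity)]
    exact max_lt (by linarith) hε

lemma Ext.smul_mem {K : Set (ℝ × (Fin m → ℝ))} {A : ℝ} (h : Ext K A) {x : ℝ × (Fin m → ℝ)}
    (hx : x ∈ K) {t : ℝ} (h0 : 0 ≤ t) (h1 : t ≤ 1) : t • x ∈ K := by
  have := h.conv hx h.zero_mem h0 (by linarith : (0 : ℝ) ≤ 1 - t) (by ring)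
  simpa using this

/-- the Steiner symmetral of an extremal body is extremal -/
lemma Ext.steiner {K : Set (ℝ × (Fin m → ℝ))} {A : ℝ} (h : Ext K A) : Ext (St K) A := by
  have hc := h.comp
  have hv : volume (St K) = volume K := volume_St h.comp h.conv
  refine ⟨St_compact hc, St_convex h.conv, ?_, ?_, h.pos, ?_, by rw [hv]; exact h.vol⟩
  · rw [(St_convex h.conv).interior_nonempty_iff_affineSpan_eq_top]
    by_contra hne
    have hH : (volume : Measure (ℝ × (Fin m → ℝ))).IsAddHaarMeasure := by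
      rw [Measure.volume_eq_prod]
      infer_instance
    have h1 := Measure.addHaar_affineSubspace (volume : Measure (ℝ × (Fin m → ℝ)))
      (affineSpan ℝ (St K)) hne
    have h2 : volume (St K) = 0 := measure_mono_null (subset_affineSpan ℝ _) h1
    rw [hv] at h2
    exact (Measure.measure_pos_of_nonempty_interior volume h.int).ne' h2
  · rintro ⟨s, y⟩ ⟨a, c, ha, hc, hs⟩
    refine ⟨-a, -c, ?_, ?_, ?_⟩
    · exact h.neg _ ha
    · exact h.neg _ hc
    · change -s = _
      change s = _ at hs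
      rw [hs]; ring
  · intro p hp
    choose a c ha hc hs using hp
    have h1 : (fun j => (p j).1) = fun j => (a j - c j) / 2 := funext hs
    rw [ctA_eq, h1, cdet_half]
    have h2 := h.pd (fun j => (a j, (p j).2)) ha
    have h3 := h.pd (fun j => (c j, (p j).2)) hc
    rw [ctA_eq] at h2 h3
    simp only at h2 h3
    rw [abs_le] at h2 h3 ⊢
    constructor <;> linarith [h2.1, h2.2, h3.1, h3.2]

lemma cdet_update_zero (s : Fin (m + 1) → ℝ) (y : Fin (m + 1) → Fin m → ℝ) :
    cdet s (Function.update y 0 0) = s 0 * (Matrix.of fun i k => y (Fin.succ k) i).det := by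
  rw [cdet_eq, Finset.sum_eq_single 0]
  · rw [Fin.val_zero, pow_zero, one_mul]
    congr 2
  · intro j _ hj
    have h0 : (Matrix.of fun i k => Function.update y 0 0 (j.succAbove k) i).det = 0 := by
      cases m with
      | zero => exact absurd (Fin.ext (by have := j.2; omega)) hj
      | succ m =>
        apply Matrix.det_eq_zero_of_column_eq_zero 0
        intro i
        rw [Matrix.of_apply, Fin.succAbove_ne_zero_zero hj, Function.update_self]
        rfl
    rw [h0, mul_zero]
  · intro h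
    exact absurd (Finset.mem_univ _) h

/-- the two supporting lines -/
theorem Ext.support {K : Set (ℝ × (Fin m → ℝ))} {A : ℝ} (h : Ext K A) {y : Fin m → ℝ} {f g : ℝ}
    (hf : (f, y) ∈ K) (hg : (-g, y) ∈ K) (hfm : ∀ s, (s, y) ∈ K → s ≤ f)
    (hgm : ∀ s, (s, y) ∈ K → -s ≤ g) {t s₁ : ℝ} (ht : 1 < t) (hs₁ : (s₁, t • y) ∈ K) :
    ∃ c p q : ℝ, f = c + p ∧ g = c + q ∧
      ∀ r s : ℝ, (s, r • y) ∈ K → s ≤ c + p * r ∧ -s ≤ c + q * r := by
  obtain ⟨δ, hδ, hδ1, hδ2⟩ := h.exists_vert
  -- the boundary point of the symmetral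
  have hx : (((f - -g) / 2, y) : ℝ × (Fin m → ℝ)) ∈ St K := ⟨f, -g, hf, hg, rfl⟩
  have hxo : ∀ ε : ℝ, 0 < ε → (1 + ε) • (((f - -g) / 2, y) : ℝ × (Fin m → ℝ)) ∉ St K := by
    rintro ε hε ⟨a, c, ha, hc, hac⟩
    simp only [Prod.smul_mk, smul_eq_mul] at ha hc hac
    have hl : 0 < 1 + ε := by linarith
    have key : ∀ a δ' : ℝ, (a, (1 + ε) • y) ∈ K → ((δ', 0) : ℝ × (Fin m → ℝ)) ∈ K →
        ((a + ε * δ') / (1 + ε), y) ∈ K := by
      intro a δ' h1 h2
      have h3 := h.conv h1 h2 (a := 1 / (1 + ε)) (b := ε / (1 + ε)) (by positivity)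
        (by positivity) (by field_simp)
      have e : (1 / (1 + ε)) • ((a, (1 + ε) • y) : ℝ × (Fin m → ℝ)) +
          (ε / (1 + ε)) • ((δ', 0) : ℝ × (Fin m → ℝ)) = ((a + ε * δ') / (1 + ε), y) := by
        refine Prod.ext ?_ ?_
        · simp only [Prod.fst_add, Prod.smul_fst, smul_eq_mul]
          field_simp
        · simp only [Prod.snd_add, Prod.smul_snd, smul_zero, add_zero, smul_smul]
          rw [one_div, inv_mul_cancel₀ hl.ne', one_smul]
      rwa [e] at h3
    have h1 := hfm _ (key a δ ha hδ1)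
    have h2 := hgm _ (key c (-δ) hc hδ2)
    rw [div_le_iff₀ hl] at h1
    rw [← neg_div, div_le_iff₀ hl] at h2
    nlinarith [mul_pos hε hδ]
  obtain ⟨P, hP, hP0, hPA⟩ := max_frame h.steiner.comp h.steiner.conv h.steiner.int h.pos
    h.steiner.pd h.steiner.vol hx hxo
  choose a c ha hc hs using hP
  have hPs0 : (P 0).1 = (f - -g) / 2 := by rw [hP0]
  have hPy0 : (P 0).2 = y := by rw [hP0]
  have ha0 : a 0 = f ∧ c 0 = -g := by
    have h1 := hfm (a 0) (by rw [← hPy0]; exact ha 0)
    have h2 := hgm (c 0) (by rw [← hPy0]; exact hc 0)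
    have h3 := hs 0
    rw [hPs0] at h3
    constructor <;> linarith
  set pa : Fin (m + 1) → ℝ × (Fin m → ℝ) := fun j => (a j, (P j).2) with hpa
  set pc : Fin (m + 1) → ℝ × (Fin m → ℝ) := fun j => (c j, (P j).2) with hpc
  have hpa1 := h.pd pa ha
  have hpc1 := h.pd pc hc
  have hhalf : ctA m P = (ctA m pa - ctA m pc) / 2 := by
    rw [ctA_eq P, show (fun j => (P j).1) = fun j => (a j - c j) / 2 from funext hs, cdet_half,
      ctA_eq pa, ctA_eq pc]
  -- the sign
  obtain ⟨σ, hσ, hσa, hσc⟩ : ∃ σ : ℝ, σ ^ 2 = 1 ∧ σ * ctA m pa = A ∧ σ * ctA m pc = -A := by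
    rw [hhalf] at hPA
    rw [abs_le] at hpa1 hpc1
    rcases abs_cases ((ctA m pa - ctA m pc) / 2) with h1 | h1
    · refine ⟨1, by norm_num, ?_, ?_⟩ <;> linarith [hpa1.1, hpa1.2, hpc1.1, hpc1.2, h1.1]
    · refine ⟨-1, by norm_num, ?_, ?_⟩ <;> linarith [hpa1.1, hpa1.2, hpc1.1, hpc1.2, h1.1]
  have hσabs : |σ| = 1 := by
    rw [← sq_eq_sq₀ (abs_nonneg σ) zero_le_one, sq_abs, hσ, one_pow]
  set F : (ℝ × (Fin m → ℝ)) →ₗ[ℝ] ℝ := σ • (ctA m).toMultilinearMap.toLinearMap pa 0 with hF
  set G : (ℝ × (Fin m → ℝ)) →ₗ[ℝ] ℝ := σ • (ctA m).toMultilinearMap.toLinearMap pc 0 with hG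
  have hFx : ∀ x, F x = σ * ctA m (Function.update pa 0 x) := fun x => rfl
  have hGx : ∀ x, G x = σ * ctA m (Function.update pc 0 x) := fun x => rfl
  have hFK : ∀ x ∈ K, F x ≤ A := by
    intro x hx
    rw [hFx]
    refine (le_abs_self _).trans ?_
    rw [abs_mul, hσabs, one_mul]
    apply h.pd
    intro j
    by_cases hj : j = 0
    · subst hj; rw [Function.update_self]; exact hx
    · rw [Function.update_of_ne hj]; exact ha j
  have hGK : ∀ x ∈ K, -A ≤ G x := by
    intro x hx
    rw [hGx]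
    refine le_trans ?_ (neg_abs_le _)
    rw [abs_mul, hσabs, one_mul, neg_le_neg_iff]
    apply h.pd
    intro j
    by_cases hj : j = 0
    · subst hj; rw [Function.update_self]; exact hx
    · rw [Function.update_of_ne hj]; exact hc j
  have hF0 : F (f, y) = A := by
    rw [hFx, ← hσa]
    congr 2
    rw [Function.update_eq_iff]
    refine ⟨?_, fun _ _ => rfl⟩
    rw [hpa]
    simp only [ha0.1, hPy0]
  have hG0 : G (-g, y) = -A := by
    rw [hGx, ← hσc]
    congr 2
    rw [Function.update_eq_iff]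
    refine ⟨?_, fun _ _ => rfl⟩
    rw [hpc]
    simp only [ha0.2, hPy0]
  -- the common slope
  have hαF : F (1, 0) = G (1, 0) := by
    rw [hFx, hGx, ctA_eq, ctA_eq]
    have e1 : (fun j => (Function.update pa 0 ((1, 0) : ℝ × (Fin m → ℝ)) j).2) =
        Function.update (fun j => (P j).2) 0 0 := by
      funext j
      by_cases hj : j = 0
      · subst hj; rw [Function.update_self, Function.update_self]
      · rw [Function.update_of_ne hj, Function.update_of_ne hj]
    have e2 : (fun j => (Function.update pc 0 ((1, 0) : ℝ × (Fin m → ℝ)) j).2) =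
        Function.update (fun j => (P j).2) 0 0 := by
      funext j
      by_cases hj : j = 0
      · subst hj; rw [Function.update_self, Function.update_self]
      · rw [Function.update_of_ne hj, Function.update_of_ne hj]
    rw [e1, e2, cdet_update_zero, cdet_update_zero, Function.update_self, Function.update_self]
  set α := F (1, 0) with hα
  set u := F (0, y) with hu
  set v := G (0, y) with hv
  have hFd : ∀ s r : ℝ, F (s, r • y) = α * s + r * u := by
    intro s r
    have e : ((s, r • y) : ℝ × (Fin m → ℝ)) = s • ((1, 0) : ℝ × (Fin m → ℝ)) + r • (0, y) := by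
      simp
    rw [e, map_add, map_smul, map_smul, smul_eq_mul, smul_eq_mul, mul_comm s]
  have hGd : ∀ s r : ℝ, G (s, r • y) = α * s + r * v := by
    intro s r
    have e : ((s, r • y) : ℝ × (Fin m → ℝ)) = s • ((1, 0) : ℝ × (Fin m → ℝ)) + r • (0, y) := by
      simp
    rw [e, map_add, map_smul, map_smul, smul_eq_mul, smul_eq_mul, mul_comm s, ← hαF]
  have hF1 : α * f + u = A := by
    have := hFd f 1
    rw [one_smul, one_mul, hF0] at this
    exact this.symm
  have hG1 : α * (-g) + v = -A := by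
    have := hGd (-g) 1
    rw [one_smul, one_mul, hG0] at this
    exact this.symm
  have hα0 : 0 < α := by
    have h1 := hFK _ hs₁
    have h2 := hGK _ hs₁
    rw [hFd] at h1
    rw [hGd] at h2
    have h3 : -g ≤ f := hfm _ hg
    have h4 : 2 * (t - 1) * A ≤ α * (t * (f + g)) := by
      have e1 : u = A - α * f := by linarith
      have e2 : v = -A + α * g := by linarith
      rw [e1] at h1
      rw [e2] at h2
      nlinarith
    by_contra hcon
    push Not at hcon
    have h5 : 0 < 2 * (t - 1) * A := mul_pos (by linarith) h.pos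
    have h6 : α * (t * (f + g)) ≤ 0 :=
      mul_nonpos_of_nonpos_of_nonneg hcon (mul_nonneg (by linarith) (by linarith))
    linarith
  refine ⟨A / α, -u / α, v / α, ?_, ?_, ?_⟩
  · field_simp
    linarith
  · field_simp
    linarith
  · intro r s hrs
    have h1 := hFK _ hrs
    have h2 := hGK _ hrs
    rw [hFd] at h1
    rw [hGd] at h2
    constructor
    · have e : A / α + -u / α * r = (A - r * u) / α := by field_simp; ring
      rw [e, le_div_iff₀ hα0]
      linarith
    · have e : A / α + v / α * r = (A + r * v) / α := by field_simp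
      rw [e, le_div_iff₀ hα0]
      linarith

end Pool.Agent.Y507.GM
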