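import Pool.Agent.Y507.GM.G2

/-!
# The midpoints of parallel chords in a plane section of an extremal body
-/

set_option autoImplicit false
open MeasureTheory Set Module Metric Filter Topology
open scoped ENNReal RealInnerProductSpace

namespace Pool.Agent.Y507.GM

open Pool.Agent.Helper481.RH Pool.Agent.Helper481.MB

variable {m : ℕ}

/-- one step -/
lemma slope_step {S : Set ℝ} {f g c p q : ℝ → ℝ}
    (hf : ∀ r ∈ S, f r = c r + p r * r) (hg : ∀ r ∈ S, g r = c r + q r * r)
    (hfl : ∀ r ∈ S, ∀ r' ∈ S, f r' ≤ c r + p r * r')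
    (hgl : ∀ r ∈ S, ∀ r' ∈ S, g r' ≤ c r + q r * r') {x : ℝ} (hx : 0 < x) {r r' : ℝ}
    (hxr : x ≤ r) (hrr : r ≤ r') (hr : r ∈ S) (hr' : r' ∈ S) :
    |(f r - g r) / r - (f r' - g r') / r'| ≤
      (r' - r) / x * ((p r + q r) - (p r' + q r')) := by
  have hr0 : 0 < r := by linarith
  have hr'0 : 0 < r' := by linarith
  have h1 := hfl r hr r' hr'
  have h2 := hgl r hr r' hr'
  have h3 := hfl r' hr' r hr
  have h4 := hgl r' hr' r hr
  have e1 := hf r hr
  have e2 := hg r hr
  have e3 := hf r' hr'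
  have e4 := hg r' hr'
  set ef := c r + p r * r' - f r' with hef
  set eg := c r + q r * r' - g r' with heg
  have hef0 : 0 ≤ ef := by linarith
  have heg0 : 0 ≤ eg := by linarith
  have hef1 : ef ≤ (p r - p r') * (r' - r) := by nlinarith
  have heg1 : eg ≤ (q r - q r') * (r' - r) := by nlinarith
  have key : (f r - g r) / r - (f r' - g r') / r' = (ef - eg) / r' := by
    have h5 : (f r - g r) / r = p r - q r := by
      rw [e1, e2]; field_simp; ring
    have h6 : (f r' - g r') = (p r - q r) * r' - (ef - eg) := by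
      rw [hef, heg]; ring
    rw [h5, h6]; field_simp; ring
  rw [key, abs_div, abs_of_pos hr'0]
  have h7 : |ef - eg| ≤ ef + eg := by
    rw [abs_le]; constructor <;> linarith
  have h8 : 0 ≤ (p r + q r) - (p r' + q r') ∨ r' - r = 0 := by
    rcases eq_or_lt_of_le hrr with h | h
    · right; linarith
    · left
      have h9 : 0 ≤ ((p r - p r') + (q r - q r')) * (r' - r) := by nlinarith
      have h10 : 0 < r' - r := by linarith
      nlinarith [nonneg_of_mul_nonneg_left h9 h10]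
  calc |ef - eg| / r' ≤ (ef + eg) / r' := by gcongr
    _ ≤ ((r' - r) * ((p r + q r) - (p r' + q r'))) / r' := by
        gcongr
        nlinarith
    _ ≤ ((r' - r) * ((p r + q r) - (p r' + q r'))) / x := by
        rcases h8 with h8 | h8
        · apply div_le_div_of_nonneg_left (mul_nonneg (by linarith) h8) hx (by linarith)
        · rw [h8, zero_mul, zero_div, zero_div]
    _ = _ := by ring

/-- the one-dimensional lemma -/
theorem slope_const {S : Set ℝ} (hS : ∀ x y, 0 < x → x ≤ y → y ∈ S → x ∈ S) {f g : ℝ → ℝ}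
    (h : ∀ r ∈ S, ∃ c p q : ℝ, f r = c + p * r ∧ g r = c + q * r ∧
      ∀ r' ∈ S, f r' ≤ c + p * r' ∧ g r' ≤ c + q * r') {x y : ℝ} (hx : 0 < x) (hxy : x ≤ y)
    (hy : y ∈ S) : (f x - g x) / x = (f y - g y) / y := by
  choose! c p q hf hg hl using h
  have hfl : ∀ r ∈ S, ∀ r' ∈ S, f r' ≤ c r + p r * r' := fun r hr r' hr' => (hl r hr r' hr').1
  have hgl : ∀ r ∈ S, ∀ r' ∈ S, g r' ≤ c r + q r * r' := fun r hr r' hr' => (hl r hr r' hr').2
  set Φ : ℝ → ℝ := fun r => (f r - g r) / r with hΦ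
  set P : ℝ → ℝ := fun r => p r + q r with hP
  have hstep : ∀ r r', x ≤ r → r ≤ r' → r' ∈ S → |Φ r - Φ r'| ≤ (r' - r) / x * (P r - P r') := by
    intro r r' h1 h2 h3
    exact slope_step hf hg hfl hgl hx h1 h2 (hS r r' (by linarith) h2 h3) h3
  have hN : ∀ N : ℕ, 0 < N → |Φ x - Φ y| ≤ (y - x) / N / x * (P x - P y) := by
    intro N hN
    have hN' : (0 : ℝ) < N := Nat.cast_pos.2 hN
    set t : ℕ → ℝ := fun k => x + k * ((y - x) / N) with ht
    have hd : 0 ≤ (y - x) / N := div_nonneg (by linarith) hN'.le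
    have hk : ∀ k : ℕ, k ≤ N → |Φ x - Φ (t k)| ≤ (y - x) / N / x * (P x - P (t k)) := by
      intro k
      induction k with
      | zero =>
        intro _
        simp [ht]
      | succ k ih =>
        intro hkN
        have h1 := ih (by omega)
        have h2 : x ≤ t k := by
          simp only [ht]
          have : (0 : ℝ) ≤ k * ((y - x) / N) := by positivity
          linarith
        have h3 : t (k + 1) - t k = (y - x) / N := by
          simp only [ht]; push_cast; ring
        have h4 : t (k + 1) ≤ y := by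
          simp only [ht]
          have h5 : ((k + 1 : ℕ) : ℝ) ≤ N := Nat.cast_le.2 hkN
          have h6 : ((k + 1 : ℕ) : ℝ) * ((y - x) / N) ≤ N * ((y - x) / N) := by gcongr
          have h7 : (N : ℝ) * ((y - x) / N) = y - x := by field_simp
          linarith
        have h5 := hstep (t k) (t (k + 1)) h2 (by linarith) (hS _ y (by linarith) h4 hy)
        rw [h3] at h5
        have h6 := abs_sub_le (Φ x) (Φ (t k)) (Φ (t (k + 1)))
        calc |Φ x - Φ (t (k + 1))| ≤ _ := h6
          _ ≤ (y - x) / N / x * (P x - P (t k)) + (y - x) / N / x * (P (t k) - P (t (k + 1))) :=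
              add_le_add h1 h5
          _ = _ := by ring
    have h1 := hk N le_rfl
    have h2 : t N = y := by
      simp only [ht]; field_simp; ring
    rwa [h2] at h1
  have hlim : Tendsto (fun N : ℕ => (y - x) / (N : ℝ) / x * (P x - P y)) atTop (𝓝 0) := by
    have h1 : Tendsto (fun N : ℕ => (y - x) / (N : ℝ)) atTop (𝓝 0) :=
      tendsto_const_div_atTop_nhds_zero_nat (y - x)
    have h2 := (h1.div_const x).mul_const (P x - P y)
    simpa using h2
  have h0 : |Φ x - Φ y| ≤ 0 := by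
    refine ge_of_tendsto hlim ?_
    filter_upwards [eventually_gt_atTop 0] with N hN0
    exact hN N hN0
  have := abs_nonpos_iff.1 h0
  exact sub_eq_zero.1 this

/-- chords parallel to the first axis, in the plane spanned by the first axis and `y` -/
theorem Ext.midpoint {K : Set (ℝ × (Fin m → ℝ))} {A : ℝ} (h : Ext K A) (y : Fin m → ℝ) :
    ∃ Φ : ℝ, ∀ r : ℝ, 0 < r → ∀ s : ℝ, (s, r • y) ∈ K → (2 * Φ * r - s, r • y) ∈ K := by
  set S : Set ℝ := {r | 0 < r ∧ ∃ t : ℝ, 1 < t ∧ ∃ s : ℝ, (s, t • r • y) ∈ K} with hS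
  -- fibres
  have hfib : ∀ r ∈ S, ∃ f g : ℝ, (f, r • y) ∈ K ∧ (-g, r • y) ∈ K ∧
      (∀ s, (s, r • y) ∈ K → s ≤ f) ∧ (∀ s, (s, r • y) ∈ K → -s ≤ g) := by
    rintro r ⟨hr, t, ht, s, hs⟩
    have h1 : (t⁻¹ * s, r • y) ∈ K := by
      have h2 := h.smul_mem hs (t := t⁻¹) (by positivity) (inv_le_one_of_one_le₀ ht.le)
      rw [Prod.smul_mk, smul_smul, inv_mul_cancel₀ (by positivity), one_smul] at h2
      exact h2
    have hne : (fib K (r • y)).Nonempty := ⟨_, h1⟩
    obtain ⟨p, q, hpq, hp, hq, hI⟩ := fib_eq_Icc h.comp h.conv hne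
    refine ⟨q, -p, hq, by rw [neg_neg]; exact hp, ?_, ?_⟩
    · intro s hs
      have : s ∈ fib K (r • y) := hs
      rw [hI] at this
      exact this.2
    · intro s hs
      have : s ∈ fib K (r • y) := hs
      rw [hI] at this
      linarith [this.1]
  choose! f g hf hg hfm hgm using hfib
  have hSdown : ∀ x y', 0 < x → x ≤ y' → y' ∈ S → x ∈ S := by
    rintro x z hx hxz ⟨hz, t, ht, s, hs⟩
    refine ⟨hx, t * (z / x), ?_, s, ?_⟩
    · have : 1 ≤ z / x := by rw [le_div_iff₀ hx]; linarith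
      nlinarith
    · rw [smul_smul] at hs ⊢
      have e : t * (z / x) * x = t * z := by field_simp
      rw [e]
      exact hs
  have hkey : ∀ r ∈ S, ∃ c p q : ℝ, f r = c + p * r ∧ g r = c + q * r ∧
      ∀ r' ∈ S, f r' ≤ c + p * r' ∧ g r' ≤ c + q * r' := by
    intro r hr
    have hr0 : 0 < r := hr.1
    obtain ⟨t, ht, s, hs⟩ := hr.2
    obtain ⟨c, p, q, h1, h2, h3⟩ := h.support (hf r hr) (hg r hr) (hfm r hr) (hgm r hr) ht hs
    refine ⟨c, p / r, q / r, ?_, ?_, ?_⟩
    · rw [h1]; field_simp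
    · rw [h2]; field_simp
    · intro r' hr'
      have e : r' • y = (r' / r) • r • y := by
        rw [smul_smul]
        congr 1
        field_simp
      have h4 := hf r' hr'
      have h5 := hg r' hr'
      rw [e] at h4 h5
      have h6 := (h3 _ _ h4).1
      have h7 := (h3 _ _ h5).2
      rw [neg_neg] at h7
      constructor
      · calc f r' ≤ _ := h6
          _ = _ := by ring
      · calc g r' ≤ _ := h7
          _ = _ := by ring
  -- a point of `S`
  obtain ⟨r₀, hr₀⟩ : ∃ r₀, r₀ ∈ S := by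
    obtain ⟨ε, hε, hb⟩ := Metric.mem_nhds_iff.1 (mem_interior_iff_mem_nhds.1 h.zero_int)
    refine ⟨ε / (4 * (‖y‖ + 1)), by positivity, 2, one_lt_two, 0, hb ?_⟩
    rw [mem_ball_zero_iff, Prod.norm_mk, norm_zero, norm_smul, norm_smul, Real.norm_eq_abs,
      Real.norm_eq_abs, abs_of_pos (by positivity : (0 : ℝ) < ε / (4 * (‖y‖ + 1))), abs_two]
    refine max_lt hε ?_
    have h1 : 0 ≤ ‖y‖ := norm_nonneg y
    have h2 : 2 * (ε / (4 * (‖y‖ + 1)) * ‖y‖) = ε * (‖y‖ / (2 * (‖y‖ + 1))) := by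
      field_simp; ring
    rw [h2]
    have h3 : ‖y‖ / (2 * (‖y‖ + 1)) < 1 := by
      rw [div_lt_one (by positivity)]; linarith
    nlinarith
  have hconst : ∀ r ∈ S, (f r - g r) / r = (f r₀ - g r₀) / r₀ := by
    intro r hr
    rcases le_total r r₀ with h1 | h1
    · exact slope_const hSdown hkey hr.1 h1 hr₀
    · exact (slope_const hSdown hkey hr₀.1 h1 hr).symm
  refine ⟨(f r₀ - g r₀) / r₀ / 2, ?_⟩
  set Φ := (f r₀ - g r₀) / r₀ / 2 with hΦ
  have hmain : ∀ r ∈ S, ∀ s : ℝ, (s, r • y) ∈ K → (2 * Φ * r - s, r • y) ∈ K := by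
    intro r hr s hs
    have hr0 : 0 < r := hr.1
    have h1 : 2 * Φ * r = f r - g r := by
      have h2 := hconst r hr
      rw [hΦ, ← h2]
      field_simp
    have h2 := hfm r hr s hs
    have h3 := hgm r hr s hs
    have hne : (fib K (r • y)).Nonempty := ⟨_, hs⟩
    obtain ⟨p, q, hpq, hp, hq, hI⟩ := fib_eq_Icc h.comp h.conv hne
    have h4 : f r ∈ fib K (r • y) := hf r hr
    have h5 : -g r ∈ fib K (r • y) := hg r hr
    have h6 : 2 * Φ * r - s ∈ fib K (r • y) := by
      rw [hI] at h4 h5 ⊢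
      constructor
      · linarith [h5.1]
      · linarith [h4.2]
    exact h6
  intro r hr s hs
  -- scale down
  have hsc : ∀ l : ℝ, l ∈ Ioo (0 : ℝ) 1 → l • (((2 * Φ * r - s), r • y) : ℝ × (Fin m → ℝ)) ∈ K := by
    intro l hl
    have h1 : l * r ∈ S := by
      refine ⟨mul_pos hl.1 hr, l⁻¹, (one_lt_inv₀ hl.1).2 hl.2, s, ?_⟩
      rw [smul_smul, ← mul_assoc, inv_mul_cancel₀ hl.1.ne', one_mul]
      exact hs
    have h2 := h.smul_mem hs hl.1.le hl.2.le
    rw [Prod.smul_mk, smul_smul, smul_eq_mul] at h2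
    have h3 := hmain _ h1 _ h2
    rw [Prod.smul_mk, smul_smul, smul_eq_mul]
    have e : l * (2 * Φ * r - s) = 2 * Φ * (l * r) - l * s := by ring
    rw [e]
    exact h3
  have hlim : Tendsto (fun l : ℝ => l • (((2 * Φ * r - s), r • y) : ℝ × (Fin m → ℝ))) (𝓝[<] 1)
      (𝓝 ((1 : ℝ) • (((2 * Φ * r - s), r • y) : ℝ × (Fin m → ℝ)))) := by
    apply Tendsto.mono_left _ nhdsWithin_le_nhds
    exact (Continuous.tendsto (by fun_prop) _)
  rw [one_smul] at hlim
  refine h.comp.isClosed.mem_of_tendsto hlim ?_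
  filter_upwards [Ioo_mem_nhdsLT (zero_lt_one (α := ℝ))] with l hl
  exact hsc l hl

end Pool.Agent.Y507.GM
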