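import Mathlib

/-!
# Planar norms all of whose parallel chords have collinear midpoints are Euclidean
-/

set_option autoImplicit false
open MeasureTheory Set Module Metric Filter Topology
open scoped ENNReal

namespace Pool.Agent.Y507.GM

/-- determinant of two vectors of the plane -/
def dd (x z : ℝ × ℝ) : ℝ := x.1 * z.2 - x.2 * z.1

/-- the invariant form -/
noncomputable def bf (T : Set (ℝ × ℝ)) (x w : ℝ × ℝ) : ℝ := ∫ z in T, dd x z * dd w z

lemma plane_haar : (volume : Measure (ℝ × ℝ)).IsAddHaarMeasure := by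
  rw [Measure.volume_eq_prod]
  infer_instance

lemma dd_cont (x w : ℝ × ℝ) : Continuous fun z : ℝ × ℝ => dd x z * dd w z := by
  unfold dd
  fun_prop

lemma bf_add {T : Set (ℝ × ℝ)} (hT : IsCompact T) (x y w : ℝ × ℝ) :
    bf T (x + y) w = bf T x w + bf T y w := by
  unfold bf
  rw [← integral_add ((dd_cont x w).continuousOn.integrableOn_compact hT)
    ((dd_cont y w).continuousOn.integrableOn_compact hT)]
  congr 1
  funext z
  simp only [dd, Prod.fst_add, Prod.snd_add]
  ring

lemma bf_smul {T : Set (ℝ × ℝ)} (c : ℝ) (x w : ℝ × ℝ) : bf T (c • x) w = c * bf T x w := by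
  unfold bf
  rw [← integral_const_mul]
  congr 1
  funext z
  simp only [dd, Prod.smul_fst, Prod.smul_snd, smul_eq_mul]
  ring

lemma bf_comm {T : Set (ℝ × ℝ)} (x w : ℝ × ℝ) : bf T x w = bf T w x := by
  unfold bf
  congr 1
  funext z
  ring

lemma bf_add' {T : Set (ℝ × ℝ)} (hT : IsCompact T) (w x y : ℝ × ℝ) :
    bf T w (x + y) = bf T w x + bf T w y := by
  rw [bf_comm w (x + y), bf_add hT, bf_comm x w, bf_comm y w]

lemma bf_smul' {T : Set (ℝ × ℝ)} (c : ℝ) (x w : ℝ × ℝ) : bf T x (c • w) = c * bf T x w := by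
  rw [bf_comm x (c • w), bf_smul, bf_comm w x]

lemma bf_pos {T : Set (ℝ × ℝ)} (hT : IsCompact T) (hint : (0 : ℝ × ℝ) ∈ interior T) {x : ℝ × ℝ}
    (hx : x ≠ 0) : 0 < bf T x x := by
  unfold bf
  rw [setIntegral_pos_iff_support_of_nonneg_ae (Eventually.of_forall fun z => mul_self_nonneg _)
    ((dd_cont x x).continuousOn.integrableOn_compact hT)]
  have hopen : IsOpen {z : ℝ × ℝ | dd x z ≠ 0} := by
    have hc : Continuous fun z : ℝ × ℝ => dd x z := by
      unfold dd
      fun_prop
    exact isOpen_ne.preimage hc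
  have hsub : {z : ℝ × ℝ | dd x z ≠ 0} ∩ interior T ⊆
      (Function.support fun z : ℝ × ℝ => dd x z * dd x z) ∩ T := by
    rintro z ⟨h1, h2⟩
    refine ⟨?_, interior_subset h2⟩
    rw [Function.mem_support]
    exact mul_ne_zero h1 h1
  refine lt_of_lt_of_le ?_ (measure_mono hsub)
  refine (hopen.inter isOpen_interior).measure_pos volume ?_
  -- a point
  obtain ⟨ε, hε, hb⟩ := Metric.mem_nhds_iff.1 (isOpen_interior.mem_nhds hint)
  set v : ℝ × ℝ := (-x.2, x.1) with hv
  have hv0 : 0 < x.1 * x.1 + x.2 * x.2 := by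
    by_contra hcon
    push Not at hcon
    apply hx
    refine Prod.ext ?_ ?_
    · change x.1 = 0
      nlinarith [mul_self_nonneg x.1, mul_self_nonneg x.2]
    · change x.2 = 0
      nlinarith [mul_self_nonneg x.1, mul_self_nonneg x.2]
  set δ : ℝ := ε / (2 * (‖v‖ + 1)) with hδ
  have hδ0 : 0 < δ := by positivity
  refine ⟨δ • v, ?_, hb ?_⟩
  · change dd x (δ • v) ≠ 0
    have : dd x (δ • v) = δ * (x.1 * x.1 + x.2 * x.2) := by
      simp only [dd, hv, Prod.smul_mk, smul_eq_mul]
      ring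
    rw [this]
    positivity
  · rw [mem_ball_zero_iff, norm_smul, Real.norm_eq_abs, abs_of_pos hδ0, hδ]
    have h1 : 0 ≤ ‖v‖ := norm_nonneg v
    have h2 : ε / (2 * (‖v‖ + 1)) * ‖v‖ = ε * (‖v‖ / (2 * (‖v‖ + 1))) := by
      field_simp
    rw [h2]
    have h3 : ‖v‖ / (2 * (‖v‖ + 1)) < 1 := by
      rw [div_lt_one (by positivity)]; linarith
    nlinarith

/-- invariance of the form under linear involutions -/
lemma bf_inv {T : Set (ℝ × ℝ)} (R : (ℝ × ℝ) →ₗ[ℝ] (ℝ × ℝ)) (hR : ∀ x, R (R x) = x)
    (hT : ∀ x, R x ∈ T ↔ x ∈ T) (x : ℝ × ℝ) : bf T (R x) (R x) = bf T x x := by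
  have hH := plane_haar
  have hdet : LinearMap.det R * LinearMap.det R = 1 := by
    rw [← LinearMap.det_comp]
    have : R ∘ₗ R = LinearMap.id := LinearMap.ext hR
    rw [this, LinearMap.det_id]
  have hdet0 : LinearMap.det R ≠ 0 := fun h => by
    rw [h, zero_mul] at hdet
    exact zero_ne_one hdet
  have habs : |(LinearMap.det R)⁻¹| = 1 := by
    have h1 : |LinearMap.det R| * |LinearMap.det R| = 1 := by
      rw [← abs_mul, hdet, abs_one]
    have h2 : |LinearMap.det R| = 1 := by nlinarith [abs_nonneg (LinearMap.det R)]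
    rw [abs_inv, h2, inv_one]
  have hmap := Measure.map_linearMap_addHaar_eq_smul_addHaar (volume : Measure (ℝ × ℝ)) hdet0
  rw [habs, ENNReal.ofReal_one, one_smul] at hmap
  have hcont : Continuous R := LinearMap.continuous_of_finiteDimensional R
  have hmp : MeasurePreserving R volume volume := ⟨hcont.measurable, hmap⟩
  let e : (ℝ × ℝ) ≃ₜ (ℝ × ℝ) := ⟨⟨R, R, hR, hR⟩, hcont, hcont⟩
  have hemb : MeasurableEmbedding R := e.measurableEmbedding
  have hpre : R ⁻¹' T = T := by
    ext z
    exact hT z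
  have h1 := hmp.setIntegral_preimage_emb hemb (fun z => dd (R x) z * dd (R x) z) T
  rw [hpre] at h1
  unfold bf
  rw [← h1]
  -- determinants
  set κ := dd (R (1, 0)) (R (0, 1)) with hκ
  have hdd : ∀ a b : ℝ × ℝ, dd (R a) (R b) = κ * dd a b := by
    intro a b
    have ea : a = a.1 • ((1, 0) : ℝ × ℝ) + a.2 • ((0, 1) : ℝ × ℝ) := by
      refine Prod.ext ?_ ?_ <;> simp
    have eb : b = b.1 • ((1, 0) : ℝ × ℝ) + b.2 • ((0, 1) : ℝ × ℝ) := by
      refine Prod.ext ?_ ?_ <;> simp
    have e1 : R a = a.1 • R (1, 0) + a.2 • R (0, 1) := by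
      conv_lhs => rw [ea]
      rw [map_add, map_smul, map_smul]
    have e2 : R b = b.1 • R (1, 0) + b.2 • R (0, 1) := by
      conv_lhs => rw [eb]
      rw [map_add, map_smul, map_smul]
    rw [e1, e2, hκ]
    simp only [dd, Prod.fst_add, Prod.snd_add, Prod.smul_fst, Prod.smul_snd, smul_eq_mul]
    ring
  have hκ2 : κ * κ = 1 := by
    have h2 := hdd (R (1, 0)) (R (0, 1))
    rw [hR, hR, ← hκ] at h2
    simp only [dd] at h2
    linarith
  congr 1
  funext z
  rw [hdd]
  calc κ * dd x z * (κ * dd x z) = (κ * κ) * (dd x z * dd x z) := by ring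
    _ = _ := by rw [hκ2, one_mul]

/-- the reflection -/
theorem exists_refl {n : ℝ × ℝ → ℝ} (hsm : ∀ (c : ℝ) z, n (c • z) = |c| * n z)
    {u : ℝ × ℝ} (hu : u ≠ 0) (H : ∀ v, ∃ Φ : ℝ, ∀ s : ℝ, n (v + s • u) = n (v + (2 * Φ - s) • u)) :
    ∃ R : (ℝ × ℝ) →ₗ[ℝ] (ℝ × ℝ), (∀ x, R (R x) = x) ∧ (∀ x, n (R x) = n x) ∧ R u = -u ∧
      ∀ x, ∃ c : ℝ, R x = x + c • u := by
  set L : ℝ := u.1 * u.1 + u.2 * u.2 with hL
  have hL0 : 0 < L := by
    by_contra hcon
    push Not at hcon
    apply hu
    refine Prod.ext ?_ ?_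
    · change u.1 = 0
      nlinarith [mul_self_nonneg u.1, mul_self_nonneg u.2]
    · change u.2 = 0
      nlinarith [mul_self_nonneg u.1, mul_self_nonneg u.2]
  set v : ℝ × ℝ := (-u.2, u.1) with hv
  obtain ⟨Φ, hΦ⟩ := H v
  set r : ℝ × ℝ → ℝ := fun x => (u.1 * x.2 - u.2 * x.1) / L with hr
  set s : ℝ × ℝ → ℝ := fun x => (x.1 * u.1 + x.2 * u.2) / L with hs
  have hdec : ∀ x, x = r x • v + s x • u := by
    intro x
    refine Prod.ext ?_ ?_
    · simp only [hr, hs, hv, Prod.fst_add, Prod.smul_fst, smul_eq_mul]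
      field_simp
      rw [hL]; ring
    · simp only [hr, hs, hv, Prod.snd_add, Prod.smul_snd, smul_eq_mul]
      field_simp
      rw [hL]; ring
  let R : (ℝ × ℝ) →ₗ[ℝ] (ℝ × ℝ) :=
    { toFun := fun x => x + (2 * Φ * r x - 2 * s x) • u
      map_add' := by
        intro x y
        refine Prod.ext ?_ ?_
        · simp only [hr, hs, Prod.fst_add, Prod.snd_add, Prod.smul_fst, smul_eq_mul]
          field_simp
          ring
        · simp only [hr, hs, Prod.fst_add, Prod.snd_add, Prod.smul_snd, smul_eq_mul]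
          field_simp
          ring
      map_smul' := by
        intro c x
        refine Prod.ext ?_ ?_
        · simp only [hr, hs, Prod.fst_add, Prod.smul_fst, Prod.smul_snd, smul_eq_mul,
            RingHom.id_apply]
          field_simp
        · simp only [hr, hs, Prod.snd_add, Prod.smul_fst, Prod.smul_snd, smul_eq_mul,
            RingHom.id_apply]
          field_simp }
  have hRx : ∀ x, R x = x + (2 * Φ * r x - 2 * s x) • u := fun x => rfl
  have hrR : ∀ x, ∀ c : ℝ, r (x + c • u) = r x := by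
    intro x c
    simp only [hr, Prod.fst_add, Prod.snd_add, Prod.smul_fst, Prod.smul_snd, smul_eq_mul]
    congr 1
    ring
  have hsR : ∀ x, ∀ c : ℝ, s (x + c • u) = s x + c := by
    intro x c
    simp only [hs, Prod.fst_add, Prod.snd_add, Prod.smul_fst, Prod.smul_snd, smul_eq_mul]
    field_simp
    rw [hL]; ring
  refine ⟨R, ?_, ?_, ?_, fun x => ⟨_, hRx x⟩⟩
  · intro x
    rw [hRx (R x), hRx x, hrR, hsR, add_assoc, ← add_smul]
    have : 2 * Φ * r x - 2 * s x + (2 * Φ * r x - 2 * (s x + (2 * Φ * r x - 2 * s x))) = 0 := by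
      ring
    rw [this, zero_smul, add_zero]
  · intro x
    by_cases hrx : r x = 0
    · have h1 : R x = (-1 : ℝ) • x := by
        have h2 : x = s x • u := by
          have := hdec x
          rwa [hrx, zero_smul, zero_add] at this
        rw [hRx, hrx, mul_zero, zero_sub]
        nth_rewrite 1 [h2]
        nth_rewrite 3 [h2]
        rw [← add_smul, smul_smul]
        congr 1
        ring
      rw [h1, hsm, abs_neg, abs_one, one_mul]
    · have h1 : x = r x • (v + (s x / r x) • u) := by
        rw [smul_add, smul_smul, mul_div_cancel₀ _ hrx]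
        exact hdec x
      have h2 : R x = r x • (v + (2 * Φ - s x / r x) • u) := by
        rw [hRx, smul_add, smul_smul]
        nth_rewrite 1 [hdec x]
        rw [add_assoc, ← add_smul]
        congr 2
        field_simp
        ring
      rw [h2, hsm, ← hΦ, ← hsm, ← h1]
  · rw [hRx]
    have h1 : r u = 0 := by
      simp only [hr]
      rw [mul_comm u.2 u.1, sub_self, zero_div]
    have h2 : s u = 1 := by
      simp only [hs]
      exact div_self hL0.ne'
    rw [h1, h2, mul_zero, zero_sub, mul_one]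
    nth_rewrite 1 [← one_smul ℝ u]
    rw [← add_smul]
    norm_num

/-- planar norms with collinear midpoints satisfy the parallelogram law -/
theorem planar {n : ℝ × ℝ → ℝ} (hcont : Continuous n) (hdef : ∀ z, z ≠ 0 → 0 < n z)
    (hsm : ∀ (c : ℝ) z, n (c • z) = |c| * n z)
    (H : ∀ u, u ≠ 0 → ∀ v, ∃ Φ : ℝ, ∀ s : ℝ, n (v + s • u) = n (v + (2 * Φ - s) • u)) :
    ∀ z w, n (z + w) ^ 2 + n (z - w) ^ 2 = 2 * n z ^ 2 + 2 * n w ^ 2 := by
  have hn0 : n 0 = 0 := by
    have := hsm 0 0
    rw [zero_smul, abs_zero, zero_mul] at this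
    exact this
  set T : Set (ℝ × ℝ) := {z | n z ≤ 1} with hT
  have hTc : IsCompact T := by
    have hsph : IsCompact (sphere (0 : ℝ × ℝ) 1) := isCompact_sphere 0 1
    have hne : (sphere (0 : ℝ × ℝ) 1).Nonempty := NormedSpace.sphere_nonempty.2 zero_le_one
    obtain ⟨x₀, hx₀, hmin⟩ := hsph.exists_isMinOn hne hcont.continuousOn
    have hx₀0 : x₀ ≠ 0 := by
      intro h
      rw [h, mem_sphere_zero_iff_norm, norm_zero] at hx₀
      exact zero_ne_one hx₀
    have hc := hdef x₀ hx₀0
    have hcl : IsClosed T := isClosed_le hcont continuous_const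
    have hbd : T ⊆ closedBall 0 (1 / n x₀) := by
      intro z hz
      rw [mem_closedBall_zero_iff]
      by_cases hz0 : z = 0
      · rw [hz0, norm_zero]; positivity
      · have hzn : 0 < ‖z‖ := norm_pos_iff.2 hz0
        have h1 : ‖z‖⁻¹ • z ∈ sphere (0 : ℝ × ℝ) 1 := by
          rw [mem_sphere_zero_iff_norm, norm_smul, norm_inv, norm_norm,
            inv_mul_cancel₀ hzn.ne']
        have h2 : n x₀ ≤ n (‖z‖⁻¹ • z) := hmin h1
        rw [hsm, abs_of_pos (by positivity), ← div_eq_inv_mul, le_div_iff₀ hzn] at h2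
        rw [le_div_iff₀ hc, mul_comm]
        exact h2.trans hz
    exact (isCompact_closedBall 0 _).of_isClosed_subset hcl hbd
  have hTint : (0 : ℝ × ℝ) ∈ interior T := by
    rw [mem_interior]
    refine ⟨{z | n z < 1}, fun z (hz : n z < 1) => (le_of_lt hz : n z ≤ 1),
      isOpen_lt hcont continuous_const, ?_⟩
    change n 0 < 1
    rw [hn0]; exact zero_lt_one
  have hadd := bf_add hTc
  have hadd' := bf_add' hTc
  have hq : ∀ x w, bf T x x = bf T w w → n x = n w := by
    intro x w hxw
    by_cases hu : x - w = 0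
    · rw [sub_eq_zero.1 hu]
    · obtain ⟨R, hRR, hRn, hRu, hRc⟩ := exists_refl hsm hu (H _ hu)
      have hRT : ∀ z, R z ∈ T ↔ z ∈ T := by
        intro z
        change n (R z) ≤ 1 ↔ n z ≤ 1
        rw [hRn]
      have hinv := bf_inv (T := T) R hRR hRT
      obtain ⟨c, hc⟩ := hRc (x + w)
      have h1 : bf T (x + w) (x - w) = 0 := by
        have e : x - w = x + (-1 : ℝ) • w := by rw [neg_one_smul, sub_eq_add_neg]
        rw [e, hadd', hadd, bf_smul', hadd, hxw, bf_comm x w]
        ring
      have h2 := hinv (x + w)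
      rw [hc] at h2
      have h3 : bf T (x + w + c • (x - w)) (x + w + c • (x - w)) =
          bf T (x + w) (x + w) + 2 * c * bf T (x + w) (x - w) +
            c * c * bf T (x - w) (x - w) := by
        rw [hadd (x + w) (c • (x - w)), hadd' (x + w) (x + w) (c • (x - w)),
          hadd' (c • (x - w)) (x + w) (c • (x - w)), bf_smul', bf_smul, bf_smul, bf_smul',
          bf_comm (x - w) (x + w)]
        ring
      rw [h3, h1, mul_zero, add_zero] at h2
      have h4 : c * c * bf T (x - w) (x - w) = 0 := by linarith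
      have h5 := bf_pos hTc hTint hu
      have h6 : c = 0 := by
        rcases mul_eq_zero.1 h4 with h | h
        · exact mul_self_eq_zero.1 h
        · exact absurd h h5.ne'
      rw [h6, zero_smul, add_zero] at hc
      have h7 : R x = w := by
        have e : x = (1 / 2 : ℝ) • (x + w) + (1 / 2 : ℝ) • (x - w) := by
          rw [← smul_add, add_add_sub_cancel, ← two_smul ℝ x, smul_smul]
          norm_num
        rw [e, map_add, map_smul, map_smul, hc, hRu, ← smul_add]
        have : x + w + -(x - w) = (2 : ℝ) • w := by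
          rw [two_smul]; abel
        rw [this, smul_smul]
        norm_num
      rw [← h7, hRn]
  -- `n² = κ q`
  have he : ((1, 0) : ℝ × ℝ) ≠ 0 := by
    intro h
    have := congrArg Prod.fst h
    simp at this
  have hqe := bf_pos hTc hTint he
  have hn : ∀ x, n x ^ 2 = n (1, 0) ^ 2 / bf T (1, 0) (1, 0) * bf T x x := by
    intro x
    have hx0 : 0 ≤ bf T x x := by
      by_cases hx : x = 0
      · rw [hx, bf]
        apply integral_nonneg
        intro z
        exact mul_self_nonneg _
      · exact (bf_pos hTc hTint hx).le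
    set l := Real.sqrt (bf T x x / bf T (1, 0) (1, 0)) with hl
    have h1 : bf T x x = bf T (l • ((1, 0) : ℝ × ℝ)) (l • ((1, 0) : ℝ × ℝ)) := by
      rw [bf_smul, bf_smul', ← mul_assoc, hl, Real.mul_self_sqrt (by positivity)]
      field_simp
    have h2 := hq _ _ h1
    rw [h2, hsm, mul_pow, sq_abs, hl, Real.sq_sqrt (by positivity)]
    field_simp
  intro z w
  rw [hn (z + w), hn (z - w), hn z, hn w]
  have e : z - w = z + (-1 : ℝ) • w := by rw [neg_one_smul, sub_eq_add_neg]
  have h1 : bf T (z + w) (z + w) = bf T z z + 2 * bf T z w + bf T w w := by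
    rw [hadd, hadd', hadd', bf_comm w z]
    ring
  have h2 : bf T (z - w) (z - w) = bf T z z - 2 * bf T z w + bf T w w := by
    rw [e, hadd, hadd', hadd', bf_smul', bf_smul, bf_smul, bf_smul', bf_comm w z]
    ring
  rw [h1, h2]
  ring

end Pool.Agent.Y507.GM
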