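import Pool.Agent.Y507.GM.G3
import Pool.Agent.Y507.GM.G4

/-!
# Extremal bodies are ellipsoids
-/

set_option autoImplicit false
open MeasureTheory Set Module Metric Filter Topology
open scoped ENNReal RealInnerProductSpace Pointwise

namespace Pool.Agent.Y507.GM

/-- Jordan - von Neumann -/
theorem exists_iso {V : Type*} [AddCommGroup V] [Module ℝ V] [FiniteDimensional ℝ V] (N : V → ℝ)
    (h0 : N 0 = 0) (hdef : ∀ x, N x = 0 → x = 0) (hsm : ∀ (c : ℝ) x, N (c • x) = |c| * N x)
    (hadd : ∀ x y, N (x + y) ≤ N x + N y)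
    (hpar : ∀ x y, N (x + y) ^ 2 + N (x - y) ^ 2 = 2 * N x ^ 2 + 2 * N y ^ 2) :
    ∃ A : V ≃ₗ[ℝ] EuclideanSpace ℝ (Fin (finrank ℝ V)), ∀ x, ‖A x‖ = N x := by
  let f : AddGroupNorm V :=
    { toFun := N
      map_zero' := h0
      add_le' := hadd
      neg' := fun x => by
        have := hsm (-1) x
        rwa [neg_one_smul, abs_neg, abs_one, one_mul] at this
      eq_zero_of_map_eq_zero' := fun x hx => hdef x hx }
  letI i1 : NormedAddCommGroup V := f.toNormedAddCommGroup
  letI i2 : NormedSpace ℝ V := { norm_smul_le := fun a b => le_of_eq (hsm a b) }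
  have hn : ∀ x : V, ‖x‖ = N x := fun x => rfl
  letI i3 : InnerProductSpace ℝ V := InnerProductSpace.ofNorm ℝ (fun x y => by
    have := hpar x y
    rw [hn, hn, hn, hn]
    nlinarith)
  exact ⟨(stdOrthonormalBasis ℝ V).repr.toLinearEquiv,
    fun x => (stdOrthonormalBasis ℝ V).repr.norm_map x⟩

open Pool.Agent.Helper481.RH Pool.Agent.Helper481.MB

variable {m : ℕ}

/-- extremal bodies -/
structure ExtE (K : Set (EuclideanSpace ℝ (Fin (m + 1)))) (A : ℝ) : Prop where
  comp : IsCompact K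
  conv : Convex ℝ K
  int : (interior K).Nonempty
  neg : ∀ x ∈ K, -x ∈ K
  pos : 0 < A
  pd : PropD K A
  vol : kap (m + 1) * ENNReal.ofReal A ≤ volume K

lemma ExtE.toExt {K : Set (EuclideanSpace ℝ (Fin (m + 1)))} {A : ℝ} (h : ExtE K A)
    (b : OrthonormalBasis (Fin (m + 1)) ℝ (EuclideanSpace ℝ (Fin (m + 1)))) :
    Ext (coord b '' K) A := by
  refine ⟨h.comp.image (coord b).continuous,
    h.conv.linear_image (coord b).toLinearEquiv.toLinearMap,
    interior_coord_nonempty b h.int, ?_, h.pos, ?_, ?_⟩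
  · rintro _ ⟨x, hx, rfl⟩
    exact ⟨-x, h.neg x hx, map_neg _ _⟩
  · intro p hp
    choose v hv hvp using hp
    have h1 := h.pd v hv
    rw [adet_coord b, ← ctA_eq (fun j => coord b (v j))] at h1
    have h2 : (fun j => coord b (v j)) = p := funext hvp
    rwa [h2] at h1
  · rw [volume_coord_image b]
    exact h.vol

lemma ExtE.zero_int {K : Set (EuclideanSpace ℝ (Fin (m + 1)))} {A : ℝ} (h : ExtE K A) :
    (0 : EuclideanSpace ℝ (Fin (m + 1))) ∈ interior K := by
  obtain ⟨x, hx⟩ := h.int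
  have h1 : -x ∈ interior K := by
    rw [mem_interior] at hx ⊢
    obtain ⟨U, hU, hUo, hxU⟩ := hx
    refine ⟨-U, fun y hy => ?_, hUo.neg, by simpa using hxU⟩
    have := h.neg _ (hU hy)
    simpa using this
  have h2 := h.conv.interior.midpoint_mem hx h1
  rwa [midpoint_self_neg] at h2

lemma ExtE.nhds {K : Set (EuclideanSpace ℝ (Fin (m + 1)))} {A : ℝ} (h : ExtE K A) :
    K ∈ 𝓝 (0 : EuclideanSpace ℝ (Fin (m + 1))) := mem_interior_iff_mem_nhds.1 h.zero_int

lemma ExtE.midpoint {K : Set (EuclideanSpace ℝ (Fin (m + 1)))} {A : ℝ} (h : ExtE K A)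
    {U : EuclideanSpace ℝ (Fin (m + 1))} (hU : U ≠ 0) (V : EuclideanSpace ℝ (Fin (m + 1))) :
    ∃ Φ : ℝ, ∀ s : ℝ, gauge K (V + s • U) = gauge K (V + (2 * Φ - s) • U) := by
  have hU0 : 0 < ‖U‖ := norm_pos_iff.2 hU
  set e : EuclideanSpace ℝ (Fin (m + 1)) := ‖U‖⁻¹ • U with he
  have hen : ‖e‖ = 1 := by
    rw [he, norm_smul, norm_inv, norm_norm, inv_mul_cancel₀ hU0.ne']
  obtain ⟨b, hb⟩ := exists_basis hen
  obtain ⟨Φ', hΦ'⟩ := (h.toExt b).midpoint (coord b V).2
  set τ : ℝ := (coord b V).1 with hτ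
  set y := (coord b V).2 with hy
  have hUe : U = ‖U‖ • e := by
    rw [he, smul_smul, mul_inv_cancel₀ hU0.ne', one_smul]
  have hcU : coord b U = (‖U‖, 0) := by
    rw [hUe, map_smul, ← hb, coord_basis, norm_smul, norm_norm, hb, hen]
    simp
  have hcV : ∀ s : ℝ, coord b (V + s • U) = (τ + s * ‖U‖, y) := by
    intro s
    rw [map_add, map_smul, hcU]
    refine Prod.ext ?_ ?_
    · simp [hτ]
    · simp [hy]
  have hmem : ∀ (t s : ℝ), 0 < t → V + s • U ∈ t • K →
      V + (2 * ((Φ' - τ) / ‖U‖) - s) • U ∈ t • K := by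
    intro t s ht hs
    rw [mem_smul_set_iff_inv_smul_mem₀ ht.ne'] at hs ⊢
    have h1 : coord b (t⁻¹ • (V + s • U)) ∈ coord b '' K := ⟨_, hs, rfl⟩
    rw [map_smul, hcV, Prod.smul_mk, smul_eq_mul] at h1
    have h2 := hΦ' _ (inv_pos.2 ht) _ h1
    obtain ⟨x, hx, hxe⟩ := h2
    have h3 : x = t⁻¹ • (V + (2 * ((Φ' - τ) / ‖U‖) - s) • U) := by
      apply (coord b).injective
      rw [hxe, map_smul, hcV, Prod.smul_mk, smul_eq_mul]
      congr 1
      field_simp
      ring
    rw [← h3]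
    exact hx
  have habs : Absorbent ℝ K := absorbent_nhds_zero h.nhds
  have hle : ∀ s : ℝ, gauge K (V + (2 * ((Φ' - τ) / ‖U‖) - s) • U) ≤ gauge K (V + s • U) := by
    intro s
    refine le_of_forall_gt_imp_ge_of_dense fun t ht => ?_
    obtain ⟨t', ht'0, ht't, hmt⟩ := exists_lt_of_gauge_lt habs ht
    exact (gauge_le_of_mem ht'0.le (hmem t' s ht'0 hmt)).trans ht't.le
  refine ⟨(Φ' - τ) / ‖U‖, fun s => le_antisymm ?_ (hle s)⟩
  have h1 := hle (2 * ((Φ' - τ) / ‖U‖) - s)
  rwa [sub_sub_cancel] at h1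

/-- extremal bodies are ellipsoids -/
theorem ExtE.ellipsoid {K : Set (EuclideanSpace ℝ (Fin (m + 1)))} {A : ℝ} (h : ExtE K A) :
    ∃ L : EuclideanSpace ℝ (Fin (m + 1)) ≃ₗ[ℝ] EuclideanSpace ℝ (Fin (m + 1)),
      K = {x | ‖L x‖ ≤ 1} := by
  have habs : Absorbent ℝ K := absorbent_nhds_zero h.nhds
  have hcont : Continuous (gauge K) := continuous_gauge h.conv h.nhds
  have hneg : ∀ x, gauge K (-x) = gauge K x := gauge_neg h.neg
  have hsm : ∀ (c : ℝ) x, gauge K (c • x) = |c| * gauge K x := by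
    intro c x
    rcases le_total 0 c with hc | hc
    · rw [gauge_smul_of_nonneg hc, abs_of_nonneg hc, smul_eq_mul]
    · have : c • x = (-c) • (-x) := by rw [neg_smul_neg]
      rw [this, gauge_smul_of_nonneg (neg_nonneg.2 hc), abs_of_nonpos hc, hneg, smul_eq_mul]
  have hdef : ∀ x, x ≠ 0 → 0 < gauge K x := fun x hx =>
    (gauge_pos habs (NormedSpace.isVonNBounded_iff ℝ |>.2 h.comp.isBounded)).2 hx
  have hpar : ∀ x y, gauge K (x + y) ^ 2 + gauge K (x - y) ^ 2 =
      2 * gauge K x ^ 2 + 2 * gauge K y ^ 2 := by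
    intro x y
    by_cases hx : x = 0
    · rw [hx, zero_add, zero_sub, hneg, gauge_zero]; ring
    by_cases hxy : ∃ c : ℝ, y = c • x
    · obtain ⟨c, rfl⟩ := hxy
      have e1 : x + c • x = (1 + c) • x := by rw [add_smul, one_smul]
      have e2 : x - c • x = (1 - c) • x := by rw [sub_smul, one_smul]
      rw [e1, e2, hsm, hsm, hsm, mul_pow, mul_pow, mul_pow, sq_abs, sq_abs, sq_abs]
      ring
    · have hind : ∀ z : ℝ × ℝ, z ≠ 0 → z.1 • x + z.2 • y ≠ 0 := by
        intro z hz hzero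
        by_cases h2 : z.2 = 0
        · rw [h2, zero_smul, add_zero, smul_eq_zero] at hzero
          rcases hzero with h3 | h3
          · exact hz (Prod.ext h3 h2)
          · exact hx h3
        · apply hxy
          refine ⟨-z.1 / z.2, ?_⟩
          have h3 : z.2 • y = -(z.1 • x) := eq_neg_of_add_eq_zero_right hzero
          have h4 : y = z.2⁻¹ • z.2 • y := by
            rw [smul_smul, inv_mul_cancel₀ h2, one_smul]
          rw [h4, h3, ← neg_smul, smul_smul]
          congr 1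
          ring
      have hp := planar (n := fun z : ℝ × ℝ => gauge K (z.1 • x + z.2 • y))
        (hcont.comp (by fun_prop)) (fun z hz => hdef _ (hind z hz)) (fun c z => by
          have e : (c • z).1 • x + (c • z).2 • y = c • (z.1 • x + z.2 • y) := by
            simp only [Prod.smul_fst, Prod.smul_snd, smul_eq_mul, smul_add, smul_smul]
          simp only [e, hsm]) (fun u hu v => by
          obtain ⟨Φ, hΦ⟩ := h.midpoint (hind u hu) (v.1 • x + v.2 • y)
          refine ⟨Φ, fun s => ?_⟩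
          have e : ∀ s : ℝ, (v + s • u).1 • x + (v + s • u).2 • y =
              (v.1 • x + v.2 • y) + s • (u.1 • x + u.2 • y) := by
            intro s
            simp only [Prod.fst_add, Prod.snd_add, Prod.smul_fst, Prod.smul_snd, smul_eq_mul,
              add_smul, smul_add, mul_smul]
            abel
          simp only [e]
          exact hΦ s)
      have h1 := hp (1, 0) (0, 1)
      simp only [Prod.fst_add, Prod.snd_add, Prod.fst_sub, Prod.snd_sub, one_smul, zero_smul,
        add_zero, zero_add, sub_zero, zero_sub, neg_smul] at h1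
      rw [← sub_eq_add_neg] at h1
      exact h1
  obtain ⟨L, hL⟩ := exists_iso (gauge K) gauge_zero (fun x hx => by
    by_contra hne
    exact (hdef x hne).ne' hx) hsm (gauge_add_le h.conv habs) hpar
  have hfr : finrank ℝ (EuclideanSpace ℝ (Fin (m + 1))) = m + 1 := by simp
  refine ⟨L.trans (LinearIsometryEquiv.piLpCongrLeft 2 ℝ ℝ (finCongr hfr)).toLinearEquiv, ?_⟩
  ext x
  rw [mem_ofPred_eq]
  have h1 : ‖(L.trans (LinearIsometryEquiv.piLpCongrLeft 2 ℝ ℝ (finCongr hfr)).toLinearEquiv) x‖ =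
      gauge K x := by
    rw [← hL]
    exact (LinearIsometryEquiv.piLpCongrLeft 2 ℝ ℝ (finCongr hfr)).norm_map (L x)
  rw [h1, gauge_le_one_iff_mem_closure h.conv h.nhds, h.comp.isClosed.closure_eq]

end Pool.Agent.Y507.GM
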