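import Pool.Agent.Y507.GM.G5

/-!
# The equality case of Macbeath's determinant inequality for symmetric bodies, in `ℝᵈ`
-/

set_option autoImplicit false
open MeasureTheory Set Module Metric Filter Topology
open scoped ENNReal RealInnerProductSpace Pointwise

namespace Pool.Agent.Y507.GM

open Pool.Agent.Helper481 Pool.Agent.Helper481.RH Pool.Agent.Helper481.MB

/-- bodies with equality are ellipsoids -/
theorem equality {d : ℕ} (hd : 1 ≤ d) {M : Set (Fin d → ℝ)} (hM : IsCompact M)
    (hc : Convex ℝ M) (hint : (interior M).Nonempty) (hneg : ∀ x ∈ M, -x ∈ M) {A : ℝ}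
    (hA0 : 0 < A) (hA : ∀ v : Fin d → Fin d → ℝ, (∀ i, v i ∈ M) → |(Matrix.of v).det| ≤ A)
    (hvol : kappa d * ENNReal.ofReal A ≤ volume M) :
    ∃ B : Matrix (Fin d) (Fin d) ℝ, B.det ≠ 0 ∧ M = (fun x => B.mulVec x) '' MB.eball d := by
  obtain ⟨m, rfl⟩ : ∃ m, d = m + 1 := ⟨d - 1, by omega⟩
  set K : Set (EuclideanSpace ℝ (Fin (m + 1))) :=
    (WithLp.ofLp : EuclideanSpace ℝ (Fin (m + 1)) → Fin (m + 1) → ℝ) ⁻¹' M with hK
  have hv : volume K = volume M :=
    (PiLp.volume_preserving_ofLp (Fin (m + 1))).measure_preimage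
      hM.measurableSet.nullMeasurableSet
  have h1 : K = (EuclideanSpace.equiv (Fin (m + 1)) ℝ).symm '' M := by
    rw [hK]
    exact ((EuclideanSpace.equiv (Fin (m + 1)) ℝ).toEquiv.symm.image_eq_preimage_symm M).symm
  have hKint : (interior K).Nonempty := by
    obtain ⟨x, hx⟩ := hint
    refine ⟨WithLp.toLp 2 x, ?_⟩
    have h2 : (WithLp.ofLp : EuclideanSpace ℝ (Fin (m + 1)) → Fin (m + 1) → ℝ) ⁻¹' (interior M) ⊆
        interior K :=
      interior_maximal (preimage_mono interior_subset)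
        (isOpen_interior.preimage (EuclideanSpace.equiv (Fin (m + 1)) ℝ).continuous)
    exact h2 hx
  have hE : ExtE K A := by
    refine ⟨?_, ?_, hKint, fun x hx => hneg _ hx, hA0, ?_, ?_⟩
    · rw [h1]
      exact hM.image (EuclideanSpace.equiv (Fin (m + 1)) ℝ).symm.continuous
    · rw [h1]
      exact hc.linear_image (EuclideanSpace.equiv (Fin (m + 1)) ℝ).symm.toLinearMap
    · intro v hv
      have h2 := hA (fun i => WithLp.ofLp (v i)) (fun i => hv i)
      rw [adet, Basis.det_apply]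
      have h3 : (EuclideanSpace.basisFun (Fin (m + 1)) ℝ).toBasis.toMatrix v =
          (Matrix.of fun i => WithLp.ofLp (v i)).transpose := by
        ext i j
        rw [Basis.toMatrix_apply]
        rfl
      rw [h3, Matrix.det_transpose]
      exact h2
    · rw [hv, kap_eq]
      exact hvol
  obtain ⟨L, hL⟩ := hE.ellipsoid
  -- the linear map in coordinates
  set e := (WithLp.linearEquiv 2 ℝ (Fin (m + 1) → ℝ)) with he
  set T : (Fin (m + 1) → ℝ) ≃ₗ[ℝ] (Fin (m + 1) → ℝ) := (e.symm.trans L.symm).trans e with hT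
  refine ⟨LinearMap.toMatrix' T.toLinearMap, ?_, ?_⟩
  · rw [LinearMap.det_toMatrix']
    exact (LinearEquiv.isUnit_det' T).ne_zero
  · ext x
    have hx : x ∈ M ↔ ‖L (e.symm x)‖ ≤ 1 := by
      have h2 : x ∈ M ↔ e.symm x ∈ K := Iff.rfl
      rw [h2, hL]
      rfl
    have hball : ∀ z : EuclideanSpace ℝ (Fin (m + 1)), e z ∈ MB.eball (m + 1) ↔ ‖z‖ ≤ 1 := by
      intro z
      have h3 := ofLp_preimage_eball (m + 1)
      have h4 : z ∈ (WithLp.ofLp : EuclideanSpace ℝ (Fin (m + 1)) → Fin (m + 1) → ℝ) ⁻¹'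
          (MB.eball (m + 1)) ↔ z ∈ closedBall (0 : EuclideanSpace ℝ (Fin (m + 1))) 1 := by rw [h3]
      rw [mem_closedBall_zero_iff] at h4
      exact h4
    rw [hx]
    constructor
    · intro h
      refine ⟨e (L (e.symm x)), (hball _).2 h, ?_⟩
      simp only
      rw [LinearMap.toMatrix'_mulVec]
      simp [hT]
    · rintro ⟨w, hw, rfl⟩
      simp only
      rw [LinearMap.toMatrix'_mulVec]
      have h4 : L (e.symm (T.toLinearMap w)) = e.symm w := by
        simp [hT]
      rw [h4, ← hball]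
      simpa using hw

end Pool.Agent.Y507.GM
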